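import Pool.Agent.Run7.h95.IP.Gen
import Pool.Agent.Run7.h95.IP.Line

/-!
# The integral points of the projective line minus `q` points, for almost all sets of primes

`K` is a number field, `α_1, …, α_q` are `q ≥ 3` different points of the projective line over `K`.
For a nonzero ideal `n` of the ring of integers let `Sol n` be the set of all points of the line, of
whatever height, which meet the `α_l` only at primes dividing `n`: the `n`-integral points of the
line minus the `α_l`. Vojta's conjecture bounds their heights by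
`(1 + ε) (log N(n) / d) q / (q - 2) + C`, for every `n`. Here `n` varies over all ideals, ordered by
their norm. We prove that the random finite set `Sol n` has a limit law, all of whose moments are
the limits of the moments, that the density of the ideals with a point with `R(x) > Z` in `Sol n` is
`Z ^ (- (1 - 2 / q) + o(1))`, and that almost always all heights in `Sol n` are at most `ψ(N(n))`,
for any function `ψ` tending to infinity.
-/

set_option autoImplicit false

namespace Pool.Agent.Results.MP_4d5ce1_nt.IntegralPointsLaw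

open NumberField IsDedekindDomain Filter Topology

variable {K : Type} [Field K] [NumberField K] {q : ℕ}

/-- coordinates of the points of the projective line: `none` is `(1 : 0)`, `x` is `(x : 1)` -/
def coords : Option K → K × K
  | none => (1, 0)
  | some x => (x, 1)

/-- the points of the projective line over `K` different from the `α l` -/
def Points (α : Fin q → K × K) : Type :=
  {x : Option K // ∀ l, (coords x).1 * (α l).2 - (coords x).2 * (α l).1 ≠ 0}

/-- the absolute logarithmic height -/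
noncomputable def height (p : K × K) : ℝ :=
  (∑ w : InfinitePlace K, (w.mult : ℝ) * Real.log (max (w p.1) (w p.2)) +
    ∑ᶠ v : HeightOneSpectrum (𝓞 K),
      Real.log (max (FinitePlace.mk v p.1) (FinitePlace.mk v p.2))) /
    (Module.finrank ℚ K : ℝ)

/-- the local height `λ_v(a, p)` at the finite place `v` -/
noncomputable def lam (v : HeightOneSpectrum (𝓞 K)) (a p : K × K) : ℝ :=
  Real.log (max (FinitePlace.mk v p.1) (FinitePlace.mk v p.2) *
    max (FinitePlace.mk v a.1) (FinitePlace.mk v a.2) /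
      FinitePlace.mk v (p.1 * a.2 - p.2 * a.1)) / (Module.finrank ℚ K : ℝ)

/-- the primes `v` where the point meets one of the `α l`: those with `λ_v(α_l, x) > 0` -/
def primes (α : Fin q → K × K) (x : Points α) : Set (HeightOneSpectrum (𝓞 K)) :=
  {v | ∃ l, 0 < lam v (α l) (coords x.1)}

/-- the primes where at least one of the points `x_1, …, x_k` meets one of the `α l` -/
def joint (α : Fin q → K × K) {k : ℕ} (x : Fin k → Points α) : Set (HeightOneSpectrum (𝓞 K)) :=
  {v | ∃ i, v ∈ primes α (x i)}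

/-- `R(x_1, …, x_k)`, the product of the norms of these primes -/
noncomputable def R (α : Fin q → K × K) {k : ℕ} (x : Fin k → Points α) : ℝ :=
  ∏ᶠ v ∈ joint α x, (Ideal.absNorm v.asIdeal : ℝ)

/-- `R(x)` for one point -/
noncomputable def R₁ (α : Fin q → K × K) (x : Points α) : ℝ :=
  ∏ᶠ v ∈ primes α x, (Ideal.absNorm v.asIdeal : ℝ)

/-- the points which meet the `α l` only at primes dividing `n` -/
def Sol (α : Fin q → K × K) (n : Ideal (𝓞 K)) : Set (Points α) :=
  {x | ∀ v ∈ primes α x, v.asIdeal ∣ n}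

/-- the nonzero ideals of norm at most `N` -/
def Ideals (K : Type) [Field K] [NumberField K] (N : ℝ) : Set (Ideal (𝓞 K)) :=
  {n | n ≠ ⊥ ∧ (Ideal.absNorm n : ℝ) ≤ N}

/-- the set of the nonzero ideals with the property `A` has the natural density `δ` -/
def Density (A : Ideal (𝓞 K) → Prop) (δ : ℝ) : Prop :=
  Tendsto (fun N : ℝ => ({n ∈ Ideals K N | A n}.ncard : ℝ) / ((Ideals K N).ncard : ℝ)) atTop (𝓝 δ)

open Run7.h283.UE in
theorem ideals_eq (N : ℝ) : Ideals K N = (IF K N : Set (Ideal (𝓞 K))) := by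
  ext n
  rw [Finset.mem_coe, mem_IF]
  rfl

open Run7.h283.UE in
theorem ncard_eq (N : ℝ) : ((Ideals K N).ncard : ℝ) = cnt K N := by
  rw [ideals_eq, Set.ncard_coe_finset]
  rfl

open Classical Run7.h283.UE in
theorem ncard_sep (N : ℝ) (A : Ideal (𝓞 K) → Prop) :
    {n ∈ Ideals K N | A n}.ncard = ((IF K N).filter A).card := by
  rw [← Set.ncard_coe_finset, Finset.coe_filter]
  congr 1
  ext n
  rw [ideals_eq]
  rfl

open Classical Run7.h283.UE in
theorem density_eq {A : Ideal (𝓞 K) → Prop} {δ : ℝ} : Density A δ ↔ HasDens K A δ := by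
  unfold HasDens Density
  have e : (fun N : ℝ => ({n ∈ Ideals K N | A n}.ncard : ℝ) / ((Ideals K N).ncard : ℝ)) =
      fun N : ℝ => ((((IF K N).filter A).card : ℕ) : ℝ) / cnt K N := by
    funext N
    rw [ncard_eq, ncard_sep]
  rw [e]

theorem coords_eq (x : Option K) : coords x = Run7.h95.IP.co x := by
  cases x <;> rfl

theorem exists_points (α : Fin q → K × K) (p : K × K)
    (hp0 : p ≠ 0) (hp : ∀ l, p.1 * (α l).2 - p.2 * (α l).1 ≠ 0) :
    ∃! x : Points α, ∃ c : K, c ≠ 0 ∧ p = c • coords x.1 := by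
  by_cases h2 : p.2 = 0
  · have h1 : p.1 ≠ 0 := fun h => hp0 (Prod.ext h h2)
    refine ⟨⟨none, fun l => ?_⟩, ⟨p.1, h1, ?_⟩, ?_⟩
    · have h3 := hp l
      show (1 : K) * (α l).2 - 0 * (α l).1 ≠ 0
      intro h
      apply h3
      rw [h2]
      have : (α l).2 = 0 := by linear_combination h
      rw [this]
      ring
    · refine Prod.ext ?_ ?_
      · show p.1 = p.1 * 1
        ring
      · show p.2 = p.1 * 0
        rw [h2]
        ring
    · rintro ⟨y, hy⟩ ⟨c, hc, hcy⟩
      apply Subtype.ext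
      cases y with
      | none => rfl
      | some y =>
        have h3 : p.2 = c * 1 := congrArg Prod.snd hcy
        rw [h2] at h3
        exact absurd (by linear_combination -h3) hc
  · refine ⟨⟨some (p.1 / p.2), fun l => ?_⟩, ⟨p.2, h2, ?_⟩, ?_⟩
    · have h3 := hp l
      show (p.1 / p.2) * (α l).2 - 1 * (α l).1 ≠ 0
      intro h
      apply h3
      have h4 : p.1 * (α l).2 - p.2 * (α l).1 =
          p.2 * ((p.1 / p.2) * (α l).2 - 1 * (α l).1) := by
        field_simp
      rw [h4, h, mul_zero]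
    · refine Prod.ext ?_ ?_
      · show p.1 = p.2 * (p.1 / p.2)
        field_simp
      · show p.2 = p.2 * 1
        ring
    · rintro ⟨y, hy⟩ ⟨c, hc, hcy⟩
      apply Subtype.ext
      cases y with
      | none =>
        have h3 : p.2 = c * 0 := congrArg Prod.snd hcy
        exact absurd (by linear_combination h3) h2
      | some y =>
        have h3 : p.2 = c * 1 := congrArg Prod.snd hcy
        have h4 : p.1 = c * y := congrArg Prod.fst hcy
        show some y = some (p.1 / p.2)
        rw [h3, h4]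
        congr 1
        field_simp

open Pool.Agent.H691R3 Run7.h95.IP in
theorem mem_primes {α : Fin q → K × K} (hα0 : ∀ l, α l ≠ 0) (x : Points α)
    (v : HeightOneSpectrum (𝓞 K)) : v ∈ primes α x ↔ v ∈ IS α x.1 := by
  have hd : (0 : ℝ) < Module.finrank ℚ K := by
    exact_mod_cast (Module.finrank_pos (R := ℚ) (M := K))
  have hx : ∀ l, (co x.1).1 * (α l).2 - (co x.1).2 * (α l).1 ≠ 0 := fun l => by
    rw [← coords_eq]
    exact x.2 l
  rw [mem_IS hα0 ⟨x.1, hx⟩]
  refine exists_congr fun l => ?_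
  have h1 : lam v (α l) (coords x.1) = lamA (fv v) (co x.1) (α l) / Module.finrank ℚ K := by
    rw [coords_eq]
    rfl
  have h2 := lamF_nonneg v (co_ne x.1) (hα0 l) (hx l)
  rw [h1]
  constructor
  · intro h3 h4
    rw [h4, zero_div] at h3
    exact lt_irrefl _ h3
  · intro h3
    exact div_pos (lt_of_le_of_ne h2 (Ne.symm h3)) hd

/-- the points, in the two descriptions -/
def toPP (α : Fin q → K × K) : Points α ≃ Run7.h95.IP.PP α where
  toFun x := ⟨x.1, fun l => by rw [← coords_eq]; exact x.2 l⟩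
  invFun x := ⟨x.1, fun l => by rw [coords_eq]; exact x.2 l⟩
  left_inv _ := rfl
  right_inv _ := rfl

open Classical in
/-- **The integral points of the projective line minus `q` points, for almost all sets of primes.**
Let `K` be a number field and let `α_1, …, α_q` be `q ≥ 3` different points of the projective line
over `K`.
(0) Every point of the line which is different from the `α_l` has the coordinates `coords x` for
exactly one `x` in `Points α`, up to proportionality, and it meets the `α_l` at finitely many primes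
only.
(1) For `k ≥ 1` and `δ > 0` at most `C X ^ (1 - (1 - 2 / q) / k + δ)` of the `k`-tuples of points
have `R(x_1, …, x_k) ≤ X`.
(2) `Sol n` is finite for every ideal `n ≠ 0`, and for all `k ≥ 1` the mean value of `#(Sol n) ^ k`
over the ideals `n ≠ 0` of norm at most `N` converges for `N → ∞`, to the convergent sum of
`1 / R(x_1, …, x_k)` over all `k`-tuples of points.
(3) The set `Sol n` has a limit law: there are `w F ≥ 0`, for the finite sets `F` of points, with
`∑ w F = 1`, the `k`-th moments `∑ (#F) ^ k w F` being the limits in (2), such that for every set `Φ`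
of sets of points the set of the ideals `n` with `Sol n ∈ Φ` has the natural density `∑ w F` over
the `F` in `Φ`.
(4) For all `Z, N ≥ 1` at most `C Z ^ (- (1 - 2 / q)) N` ideals `n` of norm at most `N` have a point
`x` with `R(x) > Z` in `Sol n`. The set of all ideals `n` with such a point has a natural density
which for every `δ > 0` is at least `c Z ^ (- (1 - 2 / q) - δ)`, with `c > 0` depending on `δ`, not
on `Z`.
(5) For every function `ψ` tending to infinity, for almost all ideals `n` (all but a set of natural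
density zero) all points in `Sol n` have height at most `ψ (N(n))`. -/
theorem result (K : Type) [Field K] [NumberField K] (q : ℕ) (hq : 3 ≤ q) (α : Fin q → K × K)
    (hα0 : ∀ l, α l ≠ 0) (hα : ∀ i j, i ≠ j → (α i).1 * (α j).2 - (α i).2 * (α j).1 ≠ 0) :
    (∀ p : K × K, p ≠ 0 → (∀ l, p.1 * (α l).2 - p.2 * (α l).1 ≠ 0) →
      ∃! x : Points α, ∃ c : K, c ≠ 0 ∧ p = c • coords x.1) ∧
    (∀ x : Points α, (primes α x).Finite) ∧
    (∀ N : ℝ, (Ideals K N).Finite) ∧
    (∀ k : ℕ, 1 ≤ k → ∀ δ : ℝ, 0 < δ → ∃ C : ℝ, ∀ X : ℝ, 1 ≤ X →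
      {x : Fin k → Points α | R α x ≤ X}.Finite ∧
      ({x : Fin k → Points α | R α x ≤ X}.ncard : ℝ) ≤
        C * X ^ (1 - (1 - 2 / (q : ℝ)) / (k : ℝ) + δ)) ∧
    (∀ n : Ideal (𝓞 K), n ≠ ⊥ → (Sol α n).Finite) ∧
    (∀ k : ℕ, 1 ≤ k → (Summable fun x : Fin k → Points α => (R α x)⁻¹) ∧
      Tendsto (fun N : ℝ =>
        (∑ᶠ n ∈ Ideals K N, ((Sol α n).ncard : ℝ) ^ k) / ((Ideals K N).ncard : ℝ))
        atTop (𝓝 (∑' x : Fin k → Points α, (R α x)⁻¹))) ∧
    (∃ w : Finset (Points α) → ℝ, (∀ F, 0 ≤ w F) ∧ HasSum w 1 ∧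
      (∀ k : ℕ, 1 ≤ k → HasSum (fun F : Finset (Points α) => (F.card : ℝ) ^ k * w F)
        (∑' x : Fin k → Points α, (R α x)⁻¹)) ∧
      ∀ Φ : Set (Set (Points α)),
        Density (fun n => Sol α n ∈ Φ)
          (∑' F : Finset (Points α), if (F : Set (Points α)) ∈ Φ then w F else 0)) ∧
    (∃ C : ℝ, ∀ Z N : ℝ, 1 ≤ Z → 1 ≤ N →
      ({n ∈ Ideals K N | ∃ x ∈ Sol α n, Z < R₁ α x}.ncard : ℝ) ≤
        C * Z ^ (-(1 - 2 / (q : ℝ))) * N) ∧
    (∀ δ : ℝ, 0 < δ → ∃ c : ℝ, 0 < c ∧ ∀ Z : ℝ, 1 ≤ Z → ∃ τ : ℝ,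
      Density (fun n : Ideal (𝓞 K) => ∃ x ∈ Sol α n, Z < R₁ α x) τ ∧
        c * Z ^ (-(1 - 2 / (q : ℝ)) - δ) ≤ τ) ∧
    (∀ ψ : ℝ → ℝ, Tendsto ψ atTop atTop →
      Density (fun n : Ideal (𝓞 K) => ∃ x ∈ Sol α n, ψ (Ideal.absNorm n : ℝ) < height (coords x.1))
        0) := by
  have hqR : (3 : ℝ) ≤ q := by exact_mod_cast hq
  have hq0 : (0 : ℝ) < q := by linarith
  have hθ1 : 2 / (q : ℝ) < 1 := by
    rw [div_lt_one hq0]
    linarith
  have hθ0 : 0 < 2 / (q : ℝ) := by positivity
  have hα' : ∀ i j, i ≠ j → Pool.Agent.H691R3.wg (α i) (α j) ≠ 0 := fun i j hij => hα i j hij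
  obtain ⟨S, hSdef⟩ : ∃ S : Points α → Finset (HeightOneSpectrum (𝓞 K)),
    S = fun x : Points α => Run7.h95.IP.IS α x.1 := ⟨_, rfl⟩
  have hmem : ∀ (x : Points α) (v : HeightOneSpectrum (𝓞 K)), v ∈ primes α x ↔ v ∈ S x := by
    intro x v
    rw [hSdef]
    exact mem_primes hα0 x v
  have hR1 : ∀ x : Points α, R₁ α x = Pool.Agent.TH876.Loc.nn (S x) := by
    intro x
    unfold R₁ Pool.Agent.TH876.Loc.nn
    have h1 : primes α x = (S x : Set (HeightOneSpectrum (𝓞 K))) := by
      ext v
      rw [Finset.mem_coe]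
      exact hmem x v
    rw [h1, finprod_mem_coe_finset]
    rfl
  have hRk : ∀ (k : ℕ) (x : Fin k → Points α),
      R α x = Pool.Agent.TH876.Loc.nn (Run7.h283.MO.un S x) := by
    intro k x
    unfold R Pool.Agent.TH876.Loc.nn
    have h1 : joint α x = (Run7.h283.MO.un S x : Set (HeightOneSpectrum (𝓞 K))) := by
      ext v
      rw [Finset.mem_coe, Run7.h283.MO.mem_un]
      exact exists_congr fun i => hmem (x i) v
    rw [h1, finprod_mem_coe_finset]
    rfl
  have hSol : ∀ n : Ideal (𝓞 K), Sol α n = Run7.h283.UE.U S n := by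
    intro n
    ext x
    exact forall_congr' fun v => by rw [hmem]
  -- counting
  obtain ⟨c₂, hc₂, hup⟩ := Run7.h95.IP.count_upper hq hα0 hα'
  obtain ⟨c₁, X₀, hc₁, hX₀, hlow⟩ := Run7.h95.IP.count_lower hq hα0 hα'
  obtain ⟨C, hC, hun⟩ := Run7.h95.IP.unit_bound hq hα0 hα'
  have hup' : ∀ X : ℝ, 1 ≤ X → ∀ F : Finset (Points α),
      (∀ x ∈ F, Pool.Agent.TH876.Loc.nn (S x) ≤ X) → (F.card : ℝ) ≤ c₂ * X ^ (2 / (q : ℝ)) := by
    intro X hX F hF
    have h1 := hup X hX (F.image (toPP α)) (fun y hy => by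
      obtain ⟨x, hx, rfl⟩ := Finset.mem_image.1 hy
      have := hF x hx
      rw [hSdef] at this
      exact this)
    rwa [Finset.card_image_of_injective _ (toPP α).injective] at h1
  have hlow' : ∀ X : ℝ, X₀ ≤ X → ∃ F : Finset (Points α),
      (∀ x ∈ F, Pool.Agent.TH876.Loc.nn (S x) ≤ X) ∧ c₁ * X ^ (2 / (q : ℝ)) ≤ F.card := by
    intro X hX
    obtain ⟨F, hF, hcard⟩ := hlow X hX
    refine ⟨F.image (toPP α).symm, fun y hy => ?_, ?_⟩
    · obtain ⟨x, hx, rfl⟩ := Finset.mem_image.1 hy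
      rw [hSdef]
      exact hF x hx
    · rwa [Finset.card_image_of_injective _ (toPP α).symm.injective]
  have hun' : ∀ T : Finset (HeightOneSpectrum (𝓞 K)), ∀ F : Finset (Points α),
      (∀ x ∈ F, S x ⊆ T) → (F.card : ℝ) ≤ C ^ (T.card + 1) := by
    intro T F hF
    have h1 := hun T (F.image (toPP α)) (fun y hy => by
      obtain ⟨x, hx, rfl⟩ := Finset.mem_image.1 hy
      have := hF x hx
      rw [hSdef] at this
      exact this)
    rwa [Finset.card_image_of_injective _ (toPP α).injective] at h1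
  have hcount : ∀ ε : ℝ, 0 < ε → ∃ D : ℝ, 0 < D ∧ ∀ X : ℝ, 1 ≤ X → ∀ F : Finset (Points α),
      (∀ x ∈ F, Pool.Agent.TH876.Loc.nn (S x) ≤ X) → (F.card : ℝ) ≤ D * X ^ (2 / (q : ℝ) + ε) := by
    intro ε hε
    refine ⟨c₂, hc₂, fun X hX F hF => (hup' X hX F hF).trans ?_⟩
    exact mul_le_mul_of_nonneg_left (Real.rpow_le_rpow_of_exponent_le hX (by linarith)) hc₂.le
  have hS : Summable fun x : Points α => (Pool.Agent.TH876.Loc.nn (S x))⁻¹ :=
    Run7.h283.UE.summable_of_count _ (fun x => Pool.Agent.TH876.Loc.one_le_nn _) hc₂ hθ1 hup'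
  have hSk : ∀ k : ℕ, 1 ≤ k → Summable fun x : Fin k → Points α =>
      (Pool.Agent.TH876.Loc.nn (Run7.h283.MO.un S x))⁻¹ := by
    intro k hk
    obtain ⟨m, rfl⟩ : ∃ m, k = m + 1 := ⟨k - 1, by omega⟩
    exact Run7.h283.MO.tuples_summable hθ1 hC hcount hun' m
  have hRfun : ∀ k : ℕ, (fun x : Fin k → Points α => (R α x)⁻¹) =
      fun x => (Pool.Agent.TH876.Loc.nn (Run7.h283.MO.un S x))⁻¹ := fun k => by
    funext x
    rw [hRk]
  refine ⟨exists_points α, ?_, ?_, ?_, ?_, ?_, ?_, ?_, ?_, ?_⟩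
  · intro x
    refine (S x).finite_toSet.subset fun v hv => ?_
    rw [Finset.mem_coe, ← hmem]
    exact hv
  · intro N
    rw [ideals_eq]
    exact Finset.finite_toSet _
  · intro k hk δ hδ
    obtain ⟨m, rfl⟩ : ∃ m, k = m + 1 := ⟨k - 1, by omega⟩
    obtain ⟨D, hD, h⟩ := Run7.h283.MO.tuples hθ1 hC hcount hun' m δ hδ
    refine ⟨D, fun X hX => ?_⟩
    have hset : {x : Fin (m + 1) → Points α | R α x ≤ X} =
        {x | Pool.Agent.TH876.Loc.nn (Run7.h283.MO.un S x) ≤ X} := by
      ext x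
      rw [Set.mem_ofPred_eq, Set.mem_ofPred_eq, hRk]
    rw [hset]
    have hfin := Run7.h283.UE.fin_le (hSk (m + 1) (by omega)) X
    refine ⟨hfin, ?_⟩
    have h1 := h X hX hfin.toFinset (fun x hx => (Set.Finite.mem_toFinset hfin).1 hx)
    rw [Set.ncard_eq_toFinset_card _ hfin]
    refine h1.trans (le_of_eq ?_)
    congr 3
    push_cast
    ring
  · intro n hn
    rw [hSol]
    exact Run7.h283.UE.U_finite hS hn
  · intro k hk
    have hpow : ∀ n : Ideal (𝓞 K), ((Sol α n).ncard : ℝ) ^ k =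
        ((Run7.h283.UE.U (fun x : Fin k → Points α => Run7.h283.MO.un S x) n).ncard : ℝ) := by
      intro n
      rw [Run7.h283.MO.U_un, Run7.h283.MO.ncard_pi, hSol, Nat.cast_pow]
    rw [hRfun]
    refine ⟨hSk k hk, (Run7.h283.UE.mean (hSk k hk)).congr fun N => ?_⟩
    rw [ncard_eq, ideals_eq, finsum_mem_coe_finset]
    congr 1
    exact Finset.sum_congr rfl fun n _ => by rw [hpow]
  · obtain ⟨w, hw, hlaw⟩ := Run7.h283.UE.law hS
    refine ⟨w, fun F => (hw F).nonneg, ?_, fun k hk => ?_, fun Φ => ?_⟩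
    · obtain ⟨δ, h1, h2⟩ := hlaw Set.univ
      have h3 : δ = 1 := h1.unique (Run7.h283.UE.hasDens_true.congr fun n _ => by simp)
      rw [h3] at h2
      simpa using h2
    · rw [hRfun]
      exact Run7.h95.IP.law_moment (hSk k hk) hw hlaw
    · obtain ⟨δ, h1, h2⟩ := hlaw Φ
      rw [h2.tsum_eq, density_eq]
      exact h1.congr fun n _ => by rw [hSol]
  · obtain ⟨C₁, hC₁, htail⟩ := Run7.h283.UE.power_tail
      (fun x : Points α => Pool.Agent.TH876.Loc.nn (S x)) hc₂ hθ1 hup'
    obtain ⟨C', hC', hbad⟩ := Run7.h283.UE.bad_card K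
    refine ⟨C' * C₁, fun Z N hZ hN => ?_⟩
    have h1 := hbad S hS Z (C₁ * Z ^ (2 / (q : ℝ) - 1)) (fun t ht =>
      htail Z hZ t fun i hi => (ht i hi).le) N (by linarith)
    rw [ncard_sep]
    have h3 : ((Run7.h283.UE.IF K N).filter fun n => ∃ x ∈ Sol α n, Z < R₁ α x) =
        (Run7.h283.UE.IF K N).filter fun n => ∃ i ∈ Run7.h283.UE.U S n,
          Z < Pool.Agent.TH876.Loc.nn (S i) := by
      refine Finset.filter_congr fun n _ => ?_
      rw [hSol]
      exact exists_congr fun x => by rw [hR1]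
    rw [h3]
    refine h1.trans (le_of_eq ?_)
    have h4 : -(1 - 2 / (q : ℝ)) = 2 / (q : ℝ) - 1 := by ring
    rw [h4]
    ring
  · intro δ hδ
    obtain ⟨c, hc, h⟩ := Run7.h95.IP.tail_lower hS hC hun' hθ0 hθ1 hc₁ hc₂ hlow' hup' hδ
    refine ⟨c, hc, fun Z hZ => ?_⟩
    obtain ⟨τ, hτ⟩ := Run7.h283.UE.exists_dens hS
      {B : Set (Points α) | ∃ i ∈ B, Z < Pool.Agent.TH876.Loc.nn (S i)}
    refine ⟨τ, ?_, ?_⟩
    · rw [density_eq]
      refine hτ.congr fun n _ => ?_
      rw [Set.mem_ofPred_eq, hSol]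
      exact exists_congr fun x => by rw [hR1]
    · have h4 : -(1 - 2 / (q : ℝ)) - δ = 2 / (q : ℝ) - 1 - δ := by ring
      rw [h4]
      exact h Z hZ τ hτ
  · intro ψ hψ
    have h1 := Run7.h283.UE.far hS (fun x : Points α => height (coords x.1)) hψ
    rw [density_eq]
    exact h1.congr fun n _ => by rw [hSol]

end Pool.Agent.Results.MP_4d5ce1_nt.IntegralPointsLaw
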